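import Pool.Agent.H.MP_61b90e_gt.C

namespace Pool.Agent.Results.MP_61b90e_gt.Fence

open CategoryTheory

theorem result (n : ℕ) (hn : 1 ≤ n) : ∃ (C : Type) (_ : SmallCategory C),
    SSet.KanComplex (SSet.ex.obj^[n] (nerve C)) ∧
      ¬ SSet.KanComplex (SSet.ex.obj^[n - 1] (nerve C)) := by
  obtain ⟨m, rfl⟩ : ∃ m, n = m + 1 := ⟨n - 1, by omega⟩
  exact ⟨Pool.Agent.H.MP_61b90e_gt.Fence (2 ^ (m + 1)), inferInstance,
    Pool.Agent.H.MP_61b90e_gt.kan_fence m, Pool.Agent.H.MP_61b90e_gt.not_kan_fence m⟩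

end Pool.Agent.Results.MP_61b90e_gt.Fence
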